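import Mathlib

/-!
# A symbolic power of a matroidal ideal which is not componentwise linear

The second symbolic power of the ideal generated by the bases (spanning trees) of the graphic
matroid of the complete graph on four vertices is not componentwise linear, over any field.
-/

namespace Pool.Agent.Results.MP_d6f7e8_al.NotComponentwiseLinear

open MvPolynomial Finset

section defs

variable {K : Type*} [Field K] {n : ℕ}

/-- `B` is the set of bases of a discrete polymatroid. -/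
structure IsPolymatroid (B : Set (Fin n →₀ ℕ)) : Prop where
  /-- `B` is finite. -/
  finite : B.Finite
  /-- `B` is not empty. -/
  nonempty : B.Nonempty
  /-- All elements have the same coordinate sum. -/
  sum_eq : ∀ u ∈ B, ∀ v ∈ B, ∑ i, u i = ∑ i, v i
  /-- The exchange property. -/
  exchange : ∀ u ∈ B, ∀ v ∈ B, ∀ i, v i < u i →
    ∃ j, u j < v j ∧ u - Finsupp.single i 1 + Finsupp.single j 1 ∈ B

/-- A polymatroidal ideal: it is generated by the monomials `x ^ u`, `u ∈ B`, where `B` is the set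
of bases of a discrete polymatroid.  (Since all `x ^ u` have the same degree, they are its minimal
generators.) -/
def IsPolymatroidal (I : Ideal (MvPolynomial (Fin n) K)) : Prop :=
  ∃ B : Set (Fin n →₀ ℕ), IsPolymatroid B ∧
    I = Ideal.span ((fun u => monomial u (1 : K)) '' B)

/-- The symbolic power `I^(k) = ⋂_{P ∈ Ass(I)} (I^k S_P ∩ S)`, where `Ass(I)` is the set of
associated primes of `S / I`. -/
noncomputable def symbolicPower (I : Ideal (MvPolynomial (Fin n) K)) (k : ℕ) :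
    Ideal (MvPolynomial (Fin n) K) :=
  ⨅ P : associatedPrimes (MvPolynomial (Fin n) K) (MvPolynomial (Fin n) K ⧸ I),
    haveI : P.1.IsPrime := P.2.isPrime
    ((I ^ k).map (algebraMap (MvPolynomial (Fin n) K) (Localization.AtPrime P.1))).comap
      (algebraMap (MvPolynomial (Fin n) K) (Localization.AtPrime P.1))

/-- `J_<j>`: the ideal generated by the homogeneous elements of `J` of degree `j`. -/
noncomputable def component (J : Ideal (MvPolynomial (Fin n) K)) (j : ℕ) : Ideal (MvPolynomial (Fin n) K) :=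
  Ideal.span {f | f ∈ J ∧ f.IsHomogeneous j}

/-- `L` is generated in degree `d` and has a linear free resolution: there is an exact complex
`⋯ → S^(b 2) → S^(b 1) → S^(b 0) → L → 0` in which the map to `L` is given by homogeneous
polynomials of degree `d` and all other maps are given by matrices of linear forms. -/
def HasLinearResolution (d : ℕ) (L : Ideal (MvPolynomial (Fin n) K)) : Prop :=
  ∃ (b : ℕ → ℕ) (g : Fin (b 0) → MvPolynomial (Fin n) K)
    (M : ∀ i, Matrix (Fin (b (i + 1))) (Fin (b i)) (MvPolynomial (Fin n) K)),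
    (∀ c, (g c).IsHomogeneous d) ∧ (∀ i r c, (M i r c).IsHomogeneous 1) ∧
    Ideal.span (Set.range g) = L ∧
    (∀ v : Fin (b 0) → MvPolynomial (Fin n) K, ∑ c, v c * g c = 0 ↔ ∃ w, Matrix.vecMul w (M 0) = v) ∧
    (∀ i, ∀ v : Fin (b (i + 1)) → MvPolynomial (Fin n) K,
      Matrix.vecMul v (M i) = 0 ↔ ∃ w, Matrix.vecMul w (M (i + 1)) = v)

/-- `J` is componentwise linear: every `J_<j>` has a linear free resolution. -/
def ComponentwiseLinear (J : Ideal (MvPolynomial (Fin n) K)) : Prop :=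
  ∀ j, HasLinearResolution j (component J j)

end defs

section combinatorics

/-- The bases of the graphic matroid of the complete graph on `{1,2,3,4}`; the edges
`12, 34, 13, 24, 14, 23` are numbered `0, …, 5`. -/
def bases : Finset (Finset (Fin 6)) :=
  ((Finset.univ : Finset (Fin 6)).powersetCard 3).filter fun T =>
    T ≠ {0, 2, 5} ∧ T ≠ {0, 3, 4} ∧ T ≠ {1, 2, 4} ∧ T ≠ {1, 3, 5}

/-- The cocircuits. -/
def cocircuits : Finset (Finset (Fin 6)) :=
  {{0, 2, 4}, {0, 3, 5}, {1, 2, 5}, {1, 3, 4}, {0, 1, 2, 3}, {0, 1, 4, 5}, {2, 3, 4, 5}}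

/-- The exponent vector of a squarefree monomial. -/
noncomputable def ind (T : Finset (Fin 6)) : Fin 6 →₀ ℕ :=
  Finsupp.equivFunOnFinite.symm fun i => if i ∈ T then 1 else 0

theorem ind_apply (T : Finset (Fin 6)) (i : Fin 6) : ind T i = if i ∈ T then 1 else 0 := rfl

theorem c_card : ∀ T ∈ bases, T.card = 3 := by decide +kernel

theorem c_exch : ∀ S ∈ bases, ∀ T ∈ bases, ∀ i, i ∈ S → i ∉ T → ∃ j, j ∉ S ∧ j ∈ T ∧
    insert j (S.erase i) ∈ bases := by
  decide +kernel

theorem c_meet : ∀ T ∈ bases, ∀ C ∈ cocircuits, ∃ i ∈ C, i ∈ T := by decide +kernel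

theorem c_cover : ∀ W : Finset (Fin 6), (∀ C ∈ cocircuits, ∃ i ∈ C, i ∈ W) →
    ∃ T ∈ bases, T ⊆ W := by
  decide +kernel

theorem c_hyper : ∀ C ∈ cocircuits, ∀ i ∈ C, ∃ T ∈ bases, T ⊆ insert i Cᶜ := by
  decide +kernel

/-- The three exponents `ab`, `bc`, `ca`. -/
def E : Finset (Finset (Fin 6)) := {{0, 1, 2, 3}, {2, 3, 4, 5}, {0, 1, 4, 5}}

theorem c_two : ∀ m ∈ E, ∀ C ∈ cocircuits, ∃ T₁ ∈ bases, ∃ T₂ ∈ bases, ∀ i : Fin 6,
    (if i ∈ T₁ then 1 else 0) + (if i ∈ T₂ then 1 else 0) ≤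
      (if i ∈ m then 1 else 0) + 2 * (if i ∈ Cᶜ then 1 else 0) := by
  decide +kernel

theorem isPolymatroid : IsPolymatroid (ind '' (bases : Set (Finset (Fin 6)))) where
  finite := (Finset.finite_toSet bases).image _
  nonempty := ⟨_, {0, 1, 2}, by decide +kernel, rfl⟩
  sum_eq := by
    rintro _ ⟨S, hS, rfl⟩ _ ⟨T, hT, rfl⟩
    simp only [ind_apply, Finset.sum_ite_mem, Finset.univ_inter, Finset.sum_const, smul_eq_mul,
      mul_one]
    rw [c_card S hS, c_card T hT]
  exchange := by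
    rintro _ ⟨S, hS, rfl⟩ _ ⟨T, hT, rfl⟩ i hi
    have h1 : i ∈ S ∧ i ∉ T := by
      rw [ind_apply, ind_apply] at hi
      split_ifs at hi with h1 h2 h2 <;> first | omega | exact ⟨h2, h1⟩
    obtain ⟨j, hjS, hjT, hj⟩ := c_exch S hS T hT i h1.1 h1.2
    refine ⟨j, by rw [ind_apply, ind_apply, if_neg hjS, if_pos hjT]; omega, insert j (S.erase i),
      hj, ?_⟩
    have hij : i ≠ j := fun h => hjS (h ▸ h1.1)
    ext l
    simp only [Finsupp.add_apply, Finsupp.tsub_apply, ind_apply, Finset.mem_insert,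
      Finset.mem_erase, Finsupp.single_apply]
    by_cases h3 : l = i
    · subst h3
      simp [h1.1, hij, Ne.symm hij]
    · by_cases h4 : l = j
      · subst h4
        simp [hjS, h3, Ne.symm h3]
      · simp [h3, h4, Ne.symm h3, Ne.symm h4]

end combinatorics

section algebra

variable (K : Type*) [Field K]

/-- The ideal generated by the bases. -/
noncomputable def I4 : Ideal (MvPolynomial (Fin 6) K) :=
  Ideal.span ((fun u => monomial u (1 : K)) '' (ind '' (bases : Set (Finset (Fin 6)))))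

/-- The prime ideal of a set of variables. -/
noncomputable def Q (C : Finset (Fin 6)) : Ideal (MvPolynomial (Fin 6) K) :=
  Ideal.span (X '' (C : Set (Fin 6)))

variable {K}

theorem mem_I4 (f : MvPolynomial (Fin 6) K) :
    f ∈ I4 K ↔ ∀ u ∈ f.support, ∃ T ∈ bases, ind T ≤ u := by
  unfold I4
  rw [mem_ideal_span_monomial_image]
  simp

theorem mem_Q (C : Finset (Fin 6)) (f : MvPolynomial (Fin 6) K) :
    f ∈ Q K C ↔ ∀ u ∈ f.support, ∃ i ∈ C, u i ≠ 0 := by
  unfold Q
  rw [mem_ideal_span_X_image]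
  simp

/-- The projection which kills the variables in `C`. -/
noncomputable def φ₀ (C : Finset (Fin 6)) : MvPolynomial (Fin 6) K →ₐ[K] MvPolynomial (Fin 6) K :=
  aeval fun i => if i ∈ C then 0 else X i

theorem mem_Q_iff (C : Finset (Fin 6)) (f : MvPolynomial (Fin 6) K) :
    f ∈ Q K C ↔ φ₀ C f = 0 := by
  constructor
  · intro h
    have : Q K C ≤ RingHom.ker (φ₀ C : MvPolynomial (Fin 6) K →ₐ[K] MvPolynomial (Fin 6) K) := by
      unfold Q
      rw [Ideal.span_le]
      rintro _ ⟨i, hi, rfl⟩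
      simp only [SetLike.mem_coe, RingHom.mem_ker, φ₀, aeval_X]
      rw [if_pos (by simpa using hi)]
    exact this h
  · intro h
    have h1 : (Ideal.Quotient.mkₐ K (Q K C)).comp (φ₀ C) = Ideal.Quotient.mkₐ K (Q K C) := by
      apply MvPolynomial.algHom_ext
      intro i
      simp only [AlgHom.comp_apply, φ₀, aeval_X]
      split_ifs with hi
      · rw [map_zero]
        symm
        exact Ideal.Quotient.eq_zero_iff_mem.2 (Ideal.subset_span ⟨i, by simpa using hi, rfl⟩)
      · rfl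
    have h2 := DFunLike.congr_fun h1 f
    rw [AlgHom.comp_apply, h, map_zero] at h2
    exact Ideal.Quotient.eq_zero_iff_mem.1 h2.symm

instance Q_prime (C : Finset (Fin 6)) : (Q K C).IsPrime := by
  have : Q K C = RingHom.ker (φ₀ C : MvPolynomial (Fin 6) K →ₐ[K] MvPolynomial (Fin 6) K) := by
    ext f
    rw [mem_Q_iff, RingHom.mem_ker]
  rw [this]
  exact RingHom.ker_isPrime _

theorem I4_le_Q {C : Finset (Fin 6)} (hC : C ∈ cocircuits) : I4 K ≤ Q K C := by
  intro f hf
  rw [mem_I4] at hf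
  rw [mem_Q]
  intro u hu
  obtain ⟨T, hT, h⟩ := hf u hu
  obtain ⟨i, hi, hiT⟩ := c_meet T hT C hC
  refine ⟨i, hi, ?_⟩
  have := h i
  rw [ind_apply, if_pos hiT] at this
  omega

theorem mem_I4_of_forall (f : MvPolynomial (Fin 6) K) (h : ∀ C ∈ cocircuits, f ∈ Q K C) :
    f ∈ I4 K := by
  rw [mem_I4]
  intro u hu
  obtain ⟨T, hT, hTu⟩ := c_cover u.support fun C hC => by
    obtain ⟨i, hi, h1⟩ := (mem_Q C f).1 (h C hC) u hu
    exact ⟨i, hi, by simpa using h1⟩
  refine ⟨T, hT, fun i => ?_⟩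
  rw [ind_apply]
  split_ifs with hi
  · have := hTu hi
    rw [Finsupp.mem_support_iff] at this
    omega
  · exact Nat.zero_le _

theorem mem_ass_iff (P : Ideal (MvPolynomial (Fin 6) K)) :
    P ∈ associatedPrimes (MvPolynomial (Fin 6) K) (MvPolynomial (Fin 6) K ⧸ I4 K) ↔
      P.IsPrime ∧ ∃ f : MvPolynomial (Fin 6) K, ∀ s, s ∈ P ↔ s * f ∈ I4 K := by
  have : P ∈ associatedPrimes (MvPolynomial (Fin 6) K) (MvPolynomial (Fin 6) K ⧸ I4 K) ↔
    IsAssociatedPrime P (MvPolynomial (Fin 6) K ⧸ I4 K) := Iff.rfl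
  rw [this, isAssociatedPrime_iff]
  refine and_congr_right fun _ => ?_
  constructor
  · rintro ⟨x, hx⟩
    obtain ⟨f, rfl⟩ := Ideal.Quotient.mk_surjective x
    refine ⟨f, fun s => ?_⟩
    rw [hx, Submodule.mem_colon_singleton, Submodule.mem_bot]
    change Ideal.Quotient.mk (I4 K) (s * f) = 0 ↔ _
    rw [Ideal.Quotient.eq_zero_iff_mem]
  · rintro ⟨f, hf⟩
    refine ⟨Ideal.Quotient.mk _ f, ?_⟩
    ext s
    rw [hf, Submodule.mem_colon_singleton, Submodule.mem_bot]
    change _ ↔ Ideal.Quotient.mk (I4 K) (s * f) = 0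
    rw [Ideal.Quotient.eq_zero_iff_mem]

theorem ass_le {P : Ideal (MvPolynomial (Fin 6) K)}
    (hP : P ∈ associatedPrimes (MvPolynomial (Fin 6) K) (MvPolynomial (Fin 6) K ⧸ I4 K)) :
    ∃ C ∈ cocircuits, P ≤ Q K C := by
  obtain ⟨hprime, f, hf⟩ := (mem_ass_iff P).1 hP
  have h1 : f ∉ I4 K := fun h => hprime.ne_top ((Ideal.eq_top_iff_one _).2
    ((hf 1).2 (by rwa [one_mul])))
  have h2 : ∃ C ∈ cocircuits, f ∉ Q K C := by
    by_contra hcon
    push Not at hcon
    exact h1 (mem_I4_of_forall f hcon)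
  obtain ⟨C, hC, hfC⟩ := h2
  refine ⟨C, hC, fun s hs => ?_⟩
  exact ((Q_prime C).mem_or_mem (I4_le_Q hC ((hf s).1 hs))).resolve_right hfC

theorem Q_mem_ass {C : Finset (Fin 6)} (hC : C ∈ cocircuits) :
    Q K C ∈ associatedPrimes (MvPolynomial (Fin 6) K) (MvPolynomial (Fin 6) K ⧸ I4 K) := by
  rw [mem_ass_iff]
  refine ⟨Q_prime C, monomial (ind Cᶜ) 1, fun s => ⟨fun hs => ?_, fun hs => ?_⟩⟩
  · have hle : Q K C ≤ (I4 K).colon {(monomial (ind Cᶜ) (1 : K))} := by
      unfold Q
      rw [Ideal.span_le]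
      rintro _ ⟨i, hi, rfl⟩
      rw [SetLike.mem_coe, Submodule.mem_colon_singleton, smul_eq_mul]
      obtain ⟨T, hT, hTi⟩ := c_hyper C hC i (by simpa using hi)
      rw [mem_I4]
      intro u hu
      refine ⟨T, hT, fun l => ?_⟩
      have hu' : u = Finsupp.single i 1 + ind Cᶜ := by
        have h1 : (X i : MvPolynomial (Fin 6) K) * monomial (ind Cᶜ) (1 : K) =
            monomial (Finsupp.single i 1 + ind Cᶜ) 1 := by
          rw [X, monomial_mul, one_mul]
        rw [h1] at hu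
        have := support_monomial_subset hu
        simpa using this
      rw [hu', Finsupp.add_apply, ind_apply, ind_apply]
      split_ifs with h1 h2
      · omega
      · have h3 := hTi h1
        rw [Finset.mem_insert] at h3
        have h4 : l = i := h3.resolve_right h2
        rw [h4, Finsupp.single_eq_same]
      · omega
      · omega
    have := hle hs
    rw [Submodule.mem_colon_singleton, smul_eq_mul] at this
    exact this
  · refine ((Q_prime C).mem_or_mem (I4_le_Q hC hs)).resolve_right fun h => ?_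
    rw [mem_Q] at h
    obtain ⟨i, hi, h1⟩ := h (ind Cᶜ) (by
      classical
      rw [support_monomial, if_neg one_ne_zero]
      simp)
    rw [ind_apply, if_neg (by simpa using hi)] at h1
    exact h1 rfl

theorem mem_contr {R : Type*} [CommRing R] (P J : Ideal R) [P.IsPrime] (f : R) :
    f ∈ (J.map (algebraMap R (Localization.AtPrime P))).comap
      (algebraMap R (Localization.AtPrime P)) ↔ ∃ s, s ∉ P ∧ s * f ∈ J := by
  rw [Ideal.mem_comap, IsLocalization.mem_map_algebraMap_iff P.primeCompl]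
  constructor
  · rintro ⟨⟨⟨x, hx⟩, ⟨s, hs⟩⟩, h⟩
    simp only at h
    rw [← map_mul] at h
    obtain ⟨⟨c, hc⟩, h⟩ := (IsLocalization.eq_iff_exists P.primeCompl _).1 h
    refine ⟨c * s, fun h' => ?_, ?_⟩
    · exact (‹P.IsPrime›.mem_or_mem h').elim hc hs
    · have : c * s * f = c * x := by
        rw [← h]; ring
      rw [this]
      exact J.mul_mem_left _ hx
  · rintro ⟨s, hs, h⟩
    refine ⟨⟨⟨s * f, h⟩, ⟨s, hs⟩⟩, ?_⟩
    simp only
    rw [← map_mul, mul_comm]

theorem mem_symbolicPower (k : ℕ) (f : MvPolynomial (Fin 6) K) :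
    f ∈ symbolicPower (I4 K) k ↔
      ∀ P ∈ associatedPrimes (MvPolynomial (Fin 6) K) (MvPolynomial (Fin 6) K ⧸ I4 K),
        ∃ s, s ∉ P ∧ s * f ∈ I4 K ^ k := by
  unfold symbolicPower
  rw [Ideal.mem_iInf]
  constructor
  · intro h P hP
    have : P.IsPrime := hP.isPrime
    exact (mem_contr P (I4 K ^ k) f).1 (h ⟨P, hP⟩)
  · intro h P
    have : P.1.IsPrime := P.2.isPrime
    exact (mem_contr P.1 (I4 K ^ k) f).2 (h P.1 P.2)

theorem monomial_mem_I4_sq {u : Fin 6 →₀ ℕ} {T₁ T₂ : Finset (Fin 6)} (h1 : T₁ ∈ bases)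
    (h2 : T₂ ∈ bases) (h : ind T₁ + ind T₂ ≤ u) : monomial u (1 : K) ∈ I4 K ^ 2 := by
  have e : monomial u (1 : K) =
      monomial (u - (ind T₁ + ind T₂)) 1 * (monomial (ind T₁) 1 * monomial (ind T₂) 1) := by
    rw [monomial_mul, monomial_mul, tsub_add_cancel_of_le h]
    simp
  rw [e, sq]
  refine Ideal.mul_mem_left _ _ (Ideal.mul_mem_mul ?_ ?_)
  · exact Ideal.subset_span ⟨_, ⟨T₁, h1, rfl⟩, rfl⟩
  · exact Ideal.subset_span ⟨_, ⟨T₂, h2, rfl⟩, rfl⟩

theorem E_mem {m : Finset (Fin 6)} (hm : m ∈ E) :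
    monomial (ind m) (1 : K) ∈ symbolicPower (I4 K) 2 := by
  rw [mem_symbolicPower]
  intro P hP
  obtain ⟨C, hC, hPC⟩ := ass_le hP
  refine ⟨monomial (2 • ind Cᶜ) 1, fun h => ?_, ?_⟩
  · have h' := hPC h
    rw [mem_Q] at h'
    obtain ⟨i, hi, h1⟩ := h' (2 • ind Cᶜ) (by
      classical
      rw [support_monomial, if_neg one_ne_zero]
      simp)
    rw [Finsupp.smul_apply, ind_apply, if_neg (by simpa using hi)] at h1
    exact h1 rfl
  · obtain ⟨T₁, hT₁, T₂, hT₂, h⟩ := c_two m hm C hC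
    rw [monomial_mul, one_mul]
    refine monomial_mem_I4_sq hT₁ hT₂ fun i => ?_
    have := h i
    simp only [Finsupp.add_apply, Finsupp.smul_apply, ind_apply, smul_eq_mul]
    omega

/-- Grading by the degree in the variables in `C`. -/
noncomputable def φ (C : Finset (Fin 6)) :
    MvPolynomial (Fin 6) K →ₐ[K] Polynomial (MvPolynomial (Fin 6) K) :=
  aeval fun i => if i ∈ C then Polynomial.C (X i) * Polynomial.X else Polynomial.C (X i)

theorem φ_monomial (C : Finset (Fin 6)) (u : Fin 6 →₀ ℕ) (c : K) :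
    φ C (monomial u c) = Polynomial.C (monomial u c) * Polynomial.X ^ (∑ i ∈ C, u i) := by
  unfold φ
  rw [aeval_monomial, Finsupp.prod_fintype _ _ (by simp)]
  have h1 : ∀ i : Fin 6, (if i ∈ C then (Polynomial.C (X i : MvPolynomial (Fin 6) K)) *
      Polynomial.X else Polynomial.C (X i)) ^ u i =
      Polynomial.C (X i ^ u i) * (if i ∈ C then Polynomial.X ^ u i else 1) := by
    intro i
    split_ifs
    · rw [mul_pow, Polynomial.C_pow]
    · rw [Polynomial.C_pow, mul_one]
  simp_rw [h1]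
  rw [Finset.prod_mul_distrib, Finset.prod_ite_mem, Finset.univ_inter,
    Finset.prod_pow_eq_pow_sum, ← mul_assoc]
  congr 1
  rw [← map_prod, monomial_eq, Finsupp.prod_fintype _ _ (by simp), Polynomial.C_mul]
  rfl

theorem φ_coeff (C : Finset (Fin 6)) (f : MvPolynomial (Fin 6) K) (u : Fin 6 →₀ ℕ) :
    coeff u ((φ C f).coeff (∑ i ∈ C, u i)) = coeff u f := by
  classical
  induction f using MvPolynomial.induction_on' with
  | monomial v c =>
    rw [φ_monomial, Polynomial.coeff_C_mul_X_pow]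
    by_cases h : v = u
    · subst h
      rw [if_pos rfl]
    · rw [coeff_monomial, if_neg h]
      split_ifs
      · rw [coeff_monomial, if_neg h]
      · rw [coeff_zero]
  | add p q hp hq =>
    rw [map_add, Polynomial.coeff_add, coeff_add, hp, hq, coeff_add]

theorem φ_coeff_zero (C : Finset (Fin 6)) (f : MvPolynomial (Fin 6) K) :
    (φ C f).coeff 0 = φ₀ C f := by
  have h1 : (Polynomial.evalRingHom (0 : MvPolynomial (Fin 6) K)).comp
      (φ C : MvPolynomial (Fin 6) K →ₐ[K] _).toRingHom = (φ₀ C).toRingHom := by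
    apply MvPolynomial.ringHom_ext
    · intro r
      simp [φ, φ₀]
    · intro i
      simp only [AlgHom.toRingHom_eq_coe, RingHom.coe_comp, RingHom.coe_coe, Function.comp_apply,
        φ, φ₀, aeval_X]
      split_ifs <;> simp
  have h2 := DFunLike.congr_fun h1 f
  rw [Polynomial.coeff_zero_eq_eval_zero]
  exact h2

theorem sq_dvd {C : Finset (Fin 6)} (hC : C ∈ cocircuits) {f : MvPolynomial (Fin 6) K}
    (hf : f ∈ I4 K ^ 2) : Polynomial.X ^ 2 ∣ φ C f := by
  have h1 : (I4 K).map (φ C) ≤ Ideal.span {Polynomial.X} := by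
    unfold I4
    rw [Ideal.map_span, Ideal.span_le]
    rintro _ ⟨_, ⟨_, ⟨T, hT, rfl⟩, rfl⟩, rfl⟩
    rw [SetLike.mem_coe, Ideal.mem_span_singleton]
    simp only
    rw [φ_monomial]
    refine Dvd.dvd.mul_left (dvd_pow_self _ ?_) _
    obtain ⟨i, hi, hiT⟩ := c_meet T hT C hC
    intro h0
    have := (Finset.sum_eq_zero_iff.1 h0) i hi
    rw [ind_apply, if_pos hiT] at this
    omega
  have h2 : (I4 K ^ 2).map (φ C) ≤ Ideal.span {Polynomial.X ^ 2} := by
    rw [Ideal.map_pow, ← Ideal.span_singleton_pow]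
    exact Ideal.pow_right_mono h1 2
  exact Ideal.mem_span_singleton.1 (h2 (Ideal.mem_map_of_mem _ hf))

theorem two_le {f : MvPolynomial (Fin 6) K} (hf : f ∈ symbolicPower (I4 K) 2)
    {C : Finset (Fin 6)} (hC : C ∈ cocircuits) {u : Fin 6 →₀ ℕ} (hu : coeff u f ≠ 0) :
    2 ≤ ∑ i ∈ C, u i := by
  rw [mem_symbolicPower] at hf
  obtain ⟨s, hs, hsf⟩ := hf (Q K C) (Q_mem_ass hC)
  have h1 := sq_dvd hC hsf
  rw [map_mul] at h1
  have h2 : ¬ Polynomial.X ∣ φ C s := by
    rw [Polynomial.X_dvd_iff, φ_coeff_zero, ← mem_Q_iff]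
    exact hs
  have h3 : Polynomial.X ^ 2 ∣ φ C f :=
    Polynomial.prime_X.pow_dvd_of_dvd_mul_left 2 h2 h1
  by_contra hlt
  push Not at hlt
  have h4 := (Polynomial.X_pow_dvd_iff.1 h3) _ hlt
  have h5 := φ_coeff C f u
  rw [h4, coeff_zero] at h5
  exact hu h5.symm

theorem deg4 {f : MvPolynomial (Fin 6) K} (hf : f ∈ symbolicPower (I4 K) 2)
    (hf4 : f.IsHomogeneous 4) {u : Fin 6 →₀ ℕ} (hu : coeff u f ≠ 0) :
    u = ind {0, 1, 2, 3} ∨ u = ind {2, 3, 4, 5} ∨ u = ind {0, 1, 4, 5} := by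
  have h0 : ∑ i, u i = 4 := by
    have := hf4 hu
    rw [Finsupp.weight_apply, Finsupp.sum_fintype _ _ (by simp)] at this
    simpa using this
  have h1 := two_le hf (C := {0, 2, 4}) (by decide) hu
  have h2 := two_le hf (C := {0, 3, 5}) (by decide) hu
  have h3 := two_le hf (C := {1, 2, 5}) (by decide) hu
  have h4 := two_le hf (C := {1, 3, 4}) (by decide) hu
  have h5 := two_le hf (C := {0, 1, 2, 3}) (by decide) hu
  have h6 := two_le hf (C := {0, 1, 4, 5}) (by decide) hu
  have h7 := two_le hf (C := {2, 3, 4, 5}) (by decide) hu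
  simp [Finset.sum_insert, Fin.sum_univ_succ] at h0 h1 h2 h3 h4 h5 h6 h7
  have h8 : (u 0 = 1 ∧ u 1 = 1 ∧ u 2 = 1 ∧ u 3 = 1 ∧ u 4 = 0 ∧ u 5 = 0) ∨
      (u 0 = 0 ∧ u 1 = 0 ∧ u 2 = 1 ∧ u 3 = 1 ∧ u 4 = 1 ∧ u 5 = 1) ∨
      (u 0 = 1 ∧ u 1 = 1 ∧ u 2 = 0 ∧ u 3 = 0 ∧ u 4 = 1 ∧ u 5 = 1) := by
    clear hu hf4 hf
    omega
  rcases h8 with ⟨e0, e1, e2, e3, e4, e5⟩ | ⟨e0, e1, e2, e3, e4, e5⟩ | ⟨e0, e1, e2, e3, e4, e5⟩
  · left
    ext i
    fin_cases i <;> simp [ind_apply, *]
  · right; left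
    ext i
    fin_cases i <;> simp [ind_apply, *]
  · right; right
    ext i
    fin_cases i <;> simp [ind_apply, *]

theorem coeff_mul_g {g : MvPolynomial (Fin 6) K} (hg : g ∈ symbolicPower (I4 K) 2)
    (hg4 : g.IsHomogeneous 4) (p : MvPolynomial (Fin 6) K) {u : Fin 6 →₀ ℕ}
    (hu : ∑ i, u i ≤ 1) :
    coeff (u + ind {0, 1, 2, 3}) (p * g) = coeff u p * coeff (ind {0, 1, 2, 3}) g := by
  classical
  rw [coeff_mul]
  rw [Finset.sum_eq_single (u, ind {0, 1, 2, 3})]
  · rintro ⟨x, y⟩ hxy hne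
    rw [Finset.HasAntidiagonal.mem_antidiagonal] at hxy
    simp only at hxy ⊢
    by_cases hy : coeff y g = 0
    · rw [hy, mul_zero]
    · exfalso
      rcases deg4 hg hg4 hy with h | h | h
      · subst h
        exact hne (by rw [add_right_cancel hxy])
      · subst h
        have h4 := DFunLike.congr_fun hxy 4
        have h5 := DFunLike.congr_fun hxy 5
        simp [Fin.sum_univ_succ] at hu
        simp [ind_apply] at h4 h5
        omega
      · subst h
        have h4 := DFunLike.congr_fun hxy 4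
        have h5 := DFunLike.congr_fun hxy 5
        simp [Fin.sum_univ_succ] at hu
        simp [ind_apply] at h4 h5
        omega
  · intro h
    exfalso
    apply h
    rw [Finset.HasAntidiagonal.mem_antidiagonal]

theorem not_linear : ¬ HasLinearResolution 4 (component (symbolicPower (I4 K) 2) 4) := by
  classical
  rintro ⟨b, g, M, hg4, hM1, hspan, hsyz, -⟩
  have hle : component (symbolicPower (I4 K) 2) 4 ≤ symbolicPower (I4 K) 2 :=
    Ideal.span_le.2 fun f hf => hf.1
  have hgJ : ∀ c, g c ∈ symbolicPower (I4 K) 2 := fun c =>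
    hle (hspan ▸ Ideal.subset_span ⟨c, rfl⟩)
  have hmem : ∀ m ∈ E, monomial (ind m) (1 : K) ∈ Ideal.span (Set.range g) := by
    intro m hm
    rw [hspan]
    refine Ideal.subset_span ⟨E_mem hm, isHomogeneous_monomial _ ?_⟩
    rw [Finsupp.degree_eq_sum]
    simp only [ind_apply, Finset.sum_ite_mem, Finset.univ_inter, Finset.sum_const, smul_eq_mul,
      mul_one]
    revert m
    decide
  obtain ⟨p, hp⟩ := Ideal.mem_span_range_iff_exists_fun.1 (hmem {0, 1, 2, 3} (by decide))
  obtain ⟨q, hq⟩ := Ideal.mem_span_range_iff_exists_fun.1 (hmem {0, 1, 4, 5} (by decide))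
  set α : Fin (b 0) → K := fun c => coeff (ind {0, 1, 2, 3}) (g c) with hα
  have hab : monomial (ind {4, 5}) (1 : K) * monomial (ind {0, 1, 2, 3}) (1 : K) =
      monomial (ind {2, 3}) (1 : K) * monomial (ind {0, 1, 4, 5}) (1 : K) := by
    rw [monomial_mul, monomial_mul]
    have h1 : ind {4, 5} + ind {0, 1, 2, 3} = ind {2, 3} + ind {0, 1, 4, 5} := by
      ext i
      fin_cases i <;> simp [ind_apply]
    rw [h1]
  obtain ⟨w, hw⟩ := (hsyz fun c => monomial (ind {4, 5}) (1 : K) * p c -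
      monomial (ind {2, 3}) (1 : K) * q c).1 (by
    simp only [sub_mul, mul_assoc, Finset.sum_sub_distrib, ← Finset.mul_sum]
    rw [hp, hq, hab, sub_self])
  have hrow : ∀ r, ∑ c, M 0 r c * C (α c) = 0 := by
    intro r
    have h1 : ∑ c, M 0 r c * g c = 0 := by
      apply (hsyz (fun c => M 0 r c)).2
      refine ⟨Pi.single r 1, ?_⟩
      funext c
      simp only [Matrix.vecMul, dotProduct]
      rw [Finset.sum_eq_single r]
      · rw [Pi.single_eq_same, one_mul]
      · intro r' _ hr'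
        rw [Pi.single_eq_of_ne hr', zero_mul]
      · intro h
        exact absurd (Finset.mem_univ r) h
    ext u
    rw [coeff_sum, coeff_zero]
    simp only [mul_comm _ (C _), coeff_C_mul]
    by_cases hu : ∑ i, u i ≤ 1
    · have h2 := congrArg (coeff (u + ind {0, 1, 2, 3})) h1
      rw [coeff_sum, coeff_zero] at h2
      rw [← h2]
      refine Finset.sum_congr rfl fun c _ => ?_
      rw [coeff_mul_g (hgJ c) (hg4 c) _ hu, mul_comm]
    · refine Finset.sum_eq_zero fun c _ => ?_
      rw [(hM1 0 r c).coeff_eq_zero, mul_zero]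
      rw [Finsupp.degree_eq_sum]
      omega
  have hP : coeff 0 (∑ c, p c * C (α c)) = 1 := by
    have h2 := congrArg (coeff (0 + ind {0, 1, 2, 3})) hp
    rw [coeff_sum, zero_add, coeff_monomial, if_pos rfl] at h2
    rw [← h2, coeff_sum]
    refine Finset.sum_congr rfl fun c _ => ?_
    rw [mul_comm (p c) (C _), coeff_C_mul, mul_comm]
    have := coeff_mul_g (hgJ c) (hg4 c) (p c) (u := 0) (by simp)
    rw [zero_add] at this
    rw [this]
  have hv : monomial (ind {4, 5}) (1 : K) * (∑ c, p c * C (α c)) =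
      monomial (ind {2, 3}) (1 : K) * (∑ c, q c * C (α c)) := by
    rw [← sub_eq_zero, Finset.mul_sum, Finset.mul_sum, ← Finset.sum_sub_distrib]
    have h1 : ∀ c, monomial (ind {4, 5}) (1 : K) * (p c * C (α c)) -
        monomial (ind {2, 3}) (1 : K) * (q c * C (α c)) =
        ∑ r, w r * (M 0 r c * C (α c)) := by
      intro c
      have h2 := congrFun hw c
      simp only [Matrix.vecMul, dotProduct] at h2
      rw [← mul_assoc, ← mul_assoc, ← sub_mul, ← h2, Finset.sum_mul]
      exact Finset.sum_congr rfl fun r _ => mul_assoc _ _ _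
    rw [Finset.sum_congr rfl fun c _ => h1 c, Finset.sum_comm]
    refine Finset.sum_eq_zero fun r _ => ?_
    rw [← Finset.mul_sum, hrow, mul_zero]
  have h3 := congrArg (coeff (ind {4, 5})) hv
  rw [coeff_monomial_mul', coeff_monomial_mul', if_pos le_rfl, tsub_self, hP, if_neg] at h3
  · simp at h3
  · intro h
    have := h 2
    simp [ind_apply] at this

end algebra

/-- Over every field there are a polymatroidal ideal `I` in six variables such that the second
symbolic power `I^(2)` is not componentwise linear. -/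
theorem result : ∀ (K : Type*) [Field K], ∃ I : Ideal (MvPolynomial (Fin 6) K),
    IsPolymatroidal I ∧ ¬ ComponentwiseLinear (symbolicPower I 2) := fun K _ =>
  ⟨I4 K, ⟨_, isPolymatroid, rfl⟩, fun h => not_linear (h 4)⟩

end Pool.Agent.Results.MP_d6f7e8_al.NotComponentwiseLinear
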